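import Pool.Agent.L7h59.AR.Stm

/-!
# Contraction of the components of the complement of an invariant set of vertices of a tree

Task S_CTR of project AR (helper59).
-/

set_option autoImplicit false

namespace Pool.Agent.L7h97.AR

open Pool.Agent.Y110.FJ Pool.Agent.L7h59.AR Pool.Agent.N509.TK SimpleGraph

section graph

variable {V : Type} {T : SimpleGraph V} {S : Set V}

lemma Av.symm' {u v : V} (h : Av T S u v) : Av T S v u := by
  obtain ⟨p, hp⟩ := h
  exact ⟨p.reverse, fun x hx => hp x (by rwa [Walk.support_reverse, List.mem_reverse] at hx)⟩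

lemma Av.trans' {u v w : V} (h : Av T S u v) (h' : Av T S v w) : Av T S u w := by
  obtain ⟨p, hp⟩ := h
  obtain ⟨q, hq⟩ := h'
  refine ⟨p.append q, fun x hx => ?_⟩
  rcases (Walk.mem_support_append_iff _ _).1 hx with h1 | h1
  · exact hp x h1
  · exact hq x h1

lemma Av.left {u v : V} (h : Av T S u v) : u ∉ S := by
  obtain ⟨p, hp⟩ := h
  exact hp u p.start_mem_support

lemma Av.refl' {u : V} (h : u ∉ S) : Av T S u u :=
  ⟨Walk.nil, fun x hx => by
    rw [Walk.support_nil, List.mem_singleton] at hx
    rwa [hx]⟩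

lemma Av.of_adj {u v : V} (h : T.Adj u v) (hu : u ∉ S) (hv : v ∉ S) : Av T S u v :=
  ⟨h.toWalk, fun x hx => by
    rw [Walk.support_cons, Walk.support_nil] at hx
    rcases List.mem_cons.1 hx with rfl | h1
    · exact hu
    · rw [List.mem_singleton.1 h1]
      exact hv⟩

/-- the relation -/
def rS (T : SimpleGraph V) (S : Set V) : Setoid V where
  r u v := u = v ∨ Av T S u v
  iseqv :=
    { refl := fun u => Or.inl rfl
      symm := by
        rintro u v (rfl | h)
        · exact Or.inl rfl
        · exact Or.inr (Av.symm' h)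
      trans := by
        rintro u v w (rfl | h) (rfl | h')
        · exact Or.inl rfl
        · exact Or.inr h'
        · exact Or.inr h
        · exact Or.inr (Av.trans' h h') }

/-- the class of a vertex -/
def cl (T : SimpleGraph V) (S : Set V) (v : V) : Quotient (rS T S) := Quotient.mk _ v

lemma cl_eq {u v : V} : cl T S u = cl T S v ↔ u = v ∨ Av T S u v := Quotient.eq

lemma cl_eq_mem {u v : V} (hu : u ∈ S) : cl T S u = cl T S v ↔ u = v := by
  rw [cl_eq]
  constructor
  · rintro (h | h)
    · exact h
    · exact absurd hu (Av.left h)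
  · exact Or.inl

lemma cl_surj (x : Quotient (rS T S)) : ∃ v, cl T S v = x := Quotient.exists_rep x

/-- the contracted graph -/
def tq (T : SimpleGraph V) (S : Set V) : SimpleGraph (Quotient (rS T S)) where
  Adj x y := x ≠ y ∧ ∃ u v, cl T S u = x ∧ cl T S v = y ∧ T.Adj u v
  symm := ⟨by
    rintro x y ⟨hne, u, v, hu, hv, h⟩
    exact ⟨hne.symm, v, u, hv, hu, h.symm⟩⟩
  loopless := ⟨fun x h => h.1 rfl⟩

lemma tq_reach {u v : V} (p : T.Walk u v) : (tq T S).Reachable (cl T S u) (cl T S v) := by
  induction p with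
  | nil => exact Reachable.refl _
  | @cons a b c h p ih =>
    refine Reachable.trans ?_ ih
    by_cases hab : cl T S a = cl T S b
    · rw [hab]
    · exact Adj.reachable ⟨hab, a, b, rfl, rfl, h⟩

lemma tq_connected (hT : T.Connected) : (tq T S).Connected := by
  obtain ⟨o⟩ := hT.nonempty
  have : Nonempty (Quotient (rS T S)) := ⟨cl T S o⟩
  refine ⟨fun x y => ?_⟩
  obtain ⟨u, rfl⟩ := cl_surj x
  obtain ⟨v, rfl⟩ := cl_surj y
  obtain ⟨p⟩ := hT.preconnected u v
  exact tq_reach p

lemma tq_bridge (hT : T.IsAcyclic) {u v : V} (huv : T.Adj u v) (hne : cl T S u ≠ cl T S v) :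
    (tq T S).IsBridge s(cl T S u, cl T S v) := by
  rw [SimpleGraph.isBridge_iff]
  have hb : ¬ (T.deleteEdges {s(u, v)}).Reachable u v := by
    have := (isAcyclic_iff_forall_adj_isBridge.1 hT) huv
    rwa [SimpleGraph.isBridge_iff] at this
  set L : V → Prop := fun w => (T.deleteEdges {s(u, v)}).Reachable u w with hL
  have hadj : ∀ a b, T.Adj a b → s(a, b) ≠ s(u, v) → (L a ↔ L b) := by
    intro a b hab hs
    have h1 : (T.deleteEdges {s(u, v)}).Adj a b := by
      rw [SimpleGraph.deleteEdges_adj]
      exact ⟨hab, hs⟩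
    exact ⟨fun h => Reachable.trans h h1.reachable, fun h => Reachable.trans h h1.reachable.symm⟩
  have hcl : ∀ a b, Av T S a b → (L a ↔ L b) := by
    rintro a b ⟨p, hp⟩
    induction p with
    | nil => rfl
    | @cons a b c h p ih =>
      have ha : a ∉ S := hp a (Walk.start_mem_support _)
      have hb : b ∉ S := hp b (by
        rw [Walk.support_cons]
        exact List.mem_cons_of_mem _ p.start_mem_support)
      refine (hadj a b h ?_).trans (ih fun x hx => hp x (by
        rw [Walk.support_cons]
        exact List.mem_cons_of_mem _ hx))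
      intro hs
      apply hne
      rw [cl_eq]
      right
      rcases Sym2.eq_iff.1 hs with ⟨h1, h2⟩ | ⟨h1, h2⟩
      · rw [← h1, ← h2]
        exact Av.of_adj h ha hb
      · rw [← h1, ← h2]
        exact Av.of_adj h.symm hb ha
  have hcl' : ∀ a b, cl T S a = cl T S b → (L a ↔ L b) := by
    intro a b hab
    rcases cl_eq.1 hab with rfl | h
    · rfl
    · exact hcl a b h
  have hq : ∀ x y, ((tq T S).deleteEdges {s(cl T S u, cl T S v)}).Walk x y → ∀ a b,
      cl T S a = x → cl T S b = y → (L a ↔ L b) := by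
    intro x y p
    induction p with
    | nil =>
      intro a b ha hb
      exact hcl' a b (ha.trans hb.symm)
    | @cons x y z h p ih =>
      intro a b ha hb
      rw [SimpleGraph.deleteEdges_adj] at h
      obtain ⟨⟨_, u', v', hu', hv', hadj'⟩, hs⟩ := h
      have h1 : s(u', v') ≠ s(u, v) := by
        intro h2
        apply hs
        rw [Set.mem_singleton_iff, ← hu', ← hv']
        have h3 := congrArg (Sym2.map (cl T S)) h2
        simpa using h3
      exact (hcl' a u' (ha.trans hu'.symm)).trans ((hadj u' v' hadj' h1).trans (ih v' b hv' hb))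
  rintro ⟨p⟩
  have h1 := hq _ _ p u v rfl rfl
  exact hb (h1.1 (Reachable.refl _))

lemma tq_tree (hT : T.IsTree) : (tq T S).IsTree := by
  refine ⟨tq_connected hT.connected, ?_⟩
  rw [isAcyclic_iff_forall_adj_isBridge]
  rintro x y ⟨hne, u, v, rfl, rfl, huv⟩
  exact tq_bridge hT.isAcyclic huv hne

end graph

theorem s_ctr : S_CTR := by
  intro C hC hM G V _ _ T hT hact S hS hSC hNC hf
  have hAv : ∀ (g : G) {u v : V}, Av T S u v → Av T S (g • u) (g • v) := by
    rintro g u v ⟨p, hp⟩
    let φ : T →g T := ⟨fun x => g • x, fun {a b} h => hact g a b h⟩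
    refine ⟨p.map φ, fun x hx => ?_⟩
    rw [Walk.support_map, List.mem_map] at hx
    obtain ⟨y, hy, rfl⟩ := hx
    intro h1
    have h2 := hS g⁻¹ _ h1
    change g⁻¹ • g • y ∈ S at h2
    rw [inv_smul_smul] at h2
    exact hp y hy h2
  let act : MulAction G (Quotient (rS T S)) :=
    { smul := fun g => Quotient.map (fun v => g • v) (by
        rintro u v (rfl | h)
        · exact Or.inl rfl
        · exact Or.inr (hAv g h))
      one_smul := by
        intro x
        obtain ⟨v, rfl⟩ := cl_surj x
        change cl T S ((1 : G) • v) = cl T S v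
        rw [one_smul]
      mul_smul := by
        intro g h x
        obtain ⟨v, rfl⟩ := cl_surj x
        change cl T S ((g * h) • v) = cl T S (g • h • v)
        rw [mul_smul] }
  have hsm : ∀ (g : G) (v : V), g • cl T S v = cl T S (g • v) := fun _ _ => rfl
  have hfix : ∀ v ∈ S, ∀ g : G, g • cl T S v = cl T S v → g • v = v := by
    intro v hv g h
    rw [hsm] at h
    exact (cl_eq_mem (hS g v hv)).1 h
  refine hedges (G := G) (V := Quotient (rS T S)) (T := tq T S) hC hM (tq_tree hT) ?_ ?_ ?_
  · rintro g x y ⟨hne, u, v, rfl, rfl, huv⟩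
    refine ⟨fun h => hne (smul_left_cancel g h), g • u, g • v, rfl, rfl, hact g u v huv⟩
  · intro x
    obtain ⟨v, rfl⟩ := cl_surj x
    by_cases hv : v ∈ S
    · refine hC.base.of_injective _ _ (Subgroup.inclusion (H := MulAction.stabilizer G (cl T S v))
        (K := MulAction.stabilizer G v) ?_) (Subgroup.inclusion_injective _) (hSC v hv)
      intro g hg
      exact hfix v hv g hg
    · refine hNC v hv _ fun g hg => ?_
      have h1 : g • cl T S v = cl T S v := hg
      rw [hsm] at h1
      rcases cl_eq.1 h1 with h2 | h2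
      · rw [h2]
        exact Av.refl' hv
      · exact Av.symm' h2
  · rintro x y ⟨hne, u, v, rfl, rfl, huv⟩
    have hcase : u ∈ S ∨ v ∈ S := by
      by_contra h
      push Not at h
      exact hne (cl_eq.2 (Or.inr (Av.of_adj huv h.1 h.2)))
    have hker : ∀ {P : Type} [Group P] (f : G →* P) (g : G),
        g ∈ ⁅Sb f.ker (cl T S u), Sb f.ker (cl T S u)⁆ → f g = 1 := by
      intro P _ f g hg
      have h1 := Subgroup.commutator_le_self _ hg
      exact (mem_Sb.1 h1).2
    rcases hcase with h | h
    · obtain ⟨P, hP, f, hCP, hf⟩ := hf u h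
      exact ⟨P, hP, f, hCP, fun g hg _ hgk => hf g (hfix u h g hg) (hker f g hgk)⟩
    · obtain ⟨P, hP, f, hCP, hf⟩ := hf v h
      exact ⟨P, hP, f, hCP, fun g _ hg hgk => hf g (hfix v h g hg) (hker f g hgk)⟩

end Pool.Agent.L7h97.AR
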