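import Pool.Agent.L7h59.AR.Stm2

/-!
# Chains of parabolic subgroups

Task S_DYN of project AR (helper59).
-/

set_option autoImplicit false

namespace Pool.Agent.L7h97.AR

open Pool.Agent.L7h59.AR Pool.Agent.Helper703.Cox

variable {B W : Type} [Fintype B] [DecidableEq B] [Group W] {M : CoxeterMatrix B}
  {cs : CoxeterSystem M W}

lemma up {Q : ℤ → Subgroup W} {w : W} {l : ℕ} (hl : 0 < l) (hQ : ∀ i, IsPb cs (Q i))
    (hw : ∀ i, (Q i).map (MulAut.conj w).toMonoidHom = Q (i + l)) {r : W} {i0 : ℤ}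
    (hr : ∀ k, i0 ≤ k → r ∈ Q k) : ∀ k, r ∈ Q k := by
  have hne : ∀ i : ℤ, Nonempty {k : ℤ // i ≤ k} := fun i => ⟨⟨i, le_rfl⟩⟩
  set R : ℤ → Subgroup W := fun i => ⨅ k : {k : ℤ // i ≤ k}, Q k with hR
  have hmem : ∀ (i : ℤ) (x : W), x ∈ R i ↔ ∀ k, i ≤ k → x ∈ Q k := by
    intro i x
    simp only [hR, Subgroup.mem_iInf, Subtype.forall]
  have hRp : ∀ i, IsPb cs (R i) := fun i => chain _ fun k => hQ k
  have hmono : ∀ i j, i ≤ j → R i ≤ R j := by
    intro i j hij x hx
    rw [hmem] at hx ⊢
    exact fun k hk => hx k (hij.trans hk)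
  have hQm : ∀ (i : ℤ) (x : W), x ∈ Q (i + l) ↔ w⁻¹ * x * w ∈ Q i := by
    intro i x
    rw [← hw]
    constructor
    · rintro ⟨y, hy, rfl⟩
      have : w⁻¹ * ((MulAut.conj w).toMonoidHom y) * w = y := by
        simp [MulAut.conj_apply, mul_assoc]
      rw [this]
      exact hy
    · intro h
      refine ⟨_, h, ?_⟩
      simp [MulAut.conj_apply, mul_assoc]
  have hRw : ∀ i, (R i).map (MulAut.conj w).toMonoidHom = R (i + l) := by
    intro i
    ext x
    rw [hmem]
    constructor
    · rintro ⟨y, hy, rfl⟩ k hk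
      have hy' := (hmem i y).1 hy (k - l) (by omega)
      have h1 := (hQm (k - l) ((MulAut.conj w).toMonoidHom y)).2 (by
        have : w⁻¹ * ((MulAut.conj w).toMonoidHom y) * w = y := by
          simp [MulAut.conj_apply, mul_assoc]
        rw [this]
        exact hy')
      rwa [sub_add_cancel] at h1
    · intro h
      refine ⟨w⁻¹ * x * w, (hmem _ _).2 fun k hk => ?_, ?_⟩
      · exact (hQm k x).1 (h (k + l) (by omega))
      · simp [MulAut.conj_apply, mul_assoc]
  have hstep : ∀ i, R (i + l) = R i := by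
    intro i
    have h1 : R i ≤ (R i).map (MulAut.conj w).toMonoidHom := by
      rw [hRw]
      exact hmono _ _ (by omega)
    rw [← hRw]
    exact ((hRp i).eq_of_conj w h1).symm
  have hn : ∀ (n : ℕ) (i : ℤ), R (i + n * l) = R i := by
    intro n
    induction n with
    | zero => intro i; simp
    | succ n ih =>
      intro i
      rw [show i + ((n + 1 : ℕ) : ℤ) * l = (i + n * l) + l by push_cast; ring, hstep, ih]
  intro k
  have h1 : r ∈ R i0 := (hmem _ _).2 hr
  have h2 : i0 ≤ k + (i0 - k).toNat * l := by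
    have h3 : i0 - k ≤ ((i0 - k).toNat : ℤ) := Int.self_le_toNat _
    have h4 : ((i0 - k).toNat : ℤ) ≤ (i0 - k).toNat * l := by
      have : (1 : ℤ) ≤ l := by exact_mod_cast hl
      nlinarith [Int.natCast_nonneg (i0 - k).toNat]
    omega
  have h3 := hmono _ _ h2 h1
  rw [hn] at h3
  exact (hmem _ _).1 h3 k le_rfl

theorem s_dyn : S_DYN := by
  intro B W _ _ _ M cs Q w l hl hQ hw hconv r hinf
  obtain ⟨i0, hi0⟩ := hinf.nonempty
  by_cases hb : BddAbove {i | r ∈ Q i}
  · -- unbounded below
    have hb2 : ¬ BddBelow {i | r ∈ Q i} := by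
      rintro ⟨a, ha⟩
      obtain ⟨b, hb⟩ := hb
      exact hinf ((Set.finite_Icc a b).subset fun x hx => ⟨ha hx, hb hx⟩)
    have h1 := up (cs := cs) (Q := fun i => Q (-i)) (w := w⁻¹) (l := l) (r := r) (i0 := -i0) hl
      (fun i => hQ _) (fun i => by
        have h2 := hw (-i - l)
        rw [sub_add_cancel] at h2
        rw [← h2, Subgroup.map_map]
        have h3 : (MulAut.conj w⁻¹).toMonoidHom.comp (MulAut.conj w).toMonoidHom =
            MonoidHom.id W := by
          ext x
          simp [MulAut.conj_apply, mul_assoc]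
        rw [h3, Subgroup.map_id]
        congr 1
        ring) (by
        intro k hk
        have h4 : ∃ i, r ∈ Q i ∧ i < -k := by
          by_contra hcon
          push Not at hcon
          exact hb2 ⟨-k, fun x hx => hcon x hx⟩
        obtain ⟨i, hi, hik⟩ := h4
        exact hconv r i (-k) i0 hik.le (by omega) hi hi0)
    intro i
    have := h1 (-i)
    simp only [neg_neg] at this
    exact this
  · refine up (cs := cs) hl hQ hw (i0 := i0) fun k hk => ?_
    have h4 : ∃ i, r ∈ Q i ∧ k < i := by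
      by_contra hcon
      push Not at hcon
      exact hb ⟨k, fun x hx => hcon x hx⟩
    obtain ⟨i, hi, hik⟩ := h4
    exact hconv r i0 k i hk hik.le hi0 hi

end Pool.Agent.L7h97.AR
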