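import Pool.Agent.L7h59.AR.Stm2
import Pool.Agent.L7h97.AR.Ctr

/-!
# Walks in trees and powers of elliptic and hyperbolic elements

Tasks S_ELL and S_HYL of project AR (helper59).
-/

set_option autoImplicit false

namespace Pool.Agent.L7h97.AR

open Pool.Agent.L7h59.AR Pool.Agent.Helper270.Tree SimpleGraph

section walks

variable {V : Type} {T : SimpleGraph V}

/-- every walk contains the geodesic -/
lemma mem_walk (hT : T.IsTree) {x y z : V} (p : T.Walk x y)
    (h : T.dist x z + T.dist z y = T.dist x y) : z ∈ p.support := by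
  classical
  obtain ⟨a, ha⟩ := hT.connected.exists_walk_length_eq_dist x z
  obtain ⟨b, hb⟩ := hT.connected.exists_walk_length_eq_dist z y
  have h1 : (a.append b).IsPath := by
    apply Walk.isPath_of_length_eq_dist
    rw [Walk.length_append, ha, hb, h]
  have h2 := (hT.existsUnique_path x y).unique h1 p.bypass_isPath
  apply p.support_bypass_subset_support
  rw [← h2, Walk.mem_support_append_iff]
  exact Or.inl a.end_mem_support

variable {G : Type} [Group G] [MulAction G V]

lemma Av.smul' {S : Set V} (hact : ∀ (g : G) (u v : V), T.Adj u v → T.Adj (g • u) (g • v)) (g : G)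
    (hg : ∀ v ∈ S, g⁻¹ • v ∈ S) {u v : V} (h : Av T S u v) : Av T S (g • u) (g • v) := by
  obtain ⟨p, hp⟩ := h
  let φ : T →g T := ⟨fun x => g • x, fun {a b} h => hact g a b h⟩
  refine ⟨p.map φ, fun x hx => ?_⟩
  rw [Walk.support_map, List.mem_map] at hx
  obtain ⟨y, hy, rfl⟩ := hx
  intro h1
  have h2 := hg _ h1
  change g⁻¹ • g • y ∈ S at h2
  rw [inv_smul_smul] at h2
  exact hp y hy h2

lemma dist_smul_le (hT : T.IsTree)
    (hact : ∀ (g : G) (u v : V), T.Adj u v → T.Adj (g • u) (g • v)) (g : G) (v w : V) :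
    T.dist (g • v) (g • w) ≤ T.dist v w := by
  obtain ⟨p, hp⟩ := hT.connected.exists_walk_length_eq_dist v w
  let f : T →g T := ⟨fun v => g • v, fun {a b} hab => hact g a b hab⟩
  have := SimpleGraph.dist_le (p.map f)
  rw [Walk.length_map, hp] at this
  exact this

end walks

theorem s_ell : S_ELL := by
  intro G V _ _ T hT hact w v0 hv0 z hz j hj hAv
  set S : Set V := {v | ∃ m : ℕ, 0 < m ∧ w ^ m • v = v} with hS
  -- the set is invariant under the powers of `w`
  have hinv : ∀ (k : ℤ), ∀ v ∈ S, w ^ k • v ∈ S := by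
    rintro k v ⟨m, hm, h⟩
    refine ⟨m, hm, ?_⟩
    rw [← mul_smul, ← zpow_natCast, ← zpow_add, add_comm, zpow_add, mul_smul, zpow_natCast, h]
  have hmemS : ∀ (k : ℤ) (v : V), k ≠ 0 → w ^ k • v = v → v ∈ S := by
    intro k v hk h
    refine ⟨k.natAbs, Int.natAbs_pos.2 hk, ?_⟩
    rcases Int.natAbs_eq k with h1 | h1
    · rw [h1, zpow_natCast] at h
      exact h
    · rw [h1, zpow_neg, zpow_natCast, inv_smul_eq_iff] at h
      exact h.symm
  have hzS : z ∉ S := by
    rintro ⟨m, hm, h⟩
    exact hz m hm h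
  -- the powers
  have hpow : ∀ n : ℕ, Av T S z (w ^ (j * n) • z) := by
    intro n
    induction n with
    | zero => simpa using Av.refl' hzS
    | succ n ih =>
      refine Av.trans' ih ?_
      have h1 := Av.smul' hact (w ^ (j * n)) (fun v hv => by
        rw [← zpow_neg]
        exact hinv _ v hv) hAv
      rw [← mul_smul, ← zpow_add] at h1
      have e1 : j * (n : ℤ) + j = j * ((n + 1 : ℕ) : ℤ) := by
        push_cast
        ring
      rwa [e1] at h1
  -- the nearest point
  classical
  have hex : ∃ n, ∃ s ∈ S, T.dist z s = n := ⟨_, v0, ⟨1, one_pos, by rw [pow_one, hv0]⟩, rfl⟩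
  obtain ⟨s, hs, hsn⟩ := Nat.find_spec hex
  have hmin : ∀ v ∈ S, T.dist z s ≤ T.dist z v := by
    intro v hv
    rw [hsn]
    exact Nat.find_min' hex ⟨v, hv, rfl⟩
  obtain ⟨m, hm, hms⟩ := hs
  set g : G := w ^ (j * (m : ℤ)) with hg
  have hjm : j * (m : ℤ) ≠ 0 := mul_ne_zero hj (by exact_mod_cast hm.ne')
  have hgs : g • s = s := by
    have h1 : ∀ k : ℤ, (w ^ m) ^ k • s = s := by
      intro k
      have : (w ^ m) ^ k ∈ MulAction.stabilizer G s :=
        Subgroup.zpow_mem _ (show w ^ m ∈ MulAction.stabilizer G s from hms) k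
      exact this
    rw [hg, mul_comm, zpow_mul, zpow_natCast]
    exact h1 j
  obtain ⟨p, hp⟩ := hpow m
  obtain ⟨q, hq0, hqn, hadj, hd, hnb⟩ := exists_geod hT s z
  set n := T.dist s z with hn
  have hn0 : 0 < n := by
    rcases Nat.eq_zero_or_pos n with h0 | h0
    · exfalso
      apply hzS
      have : s = z := hT.connected.dist_eq_zero_iff.mp (hn ▸ h0)
      rw [← this]
      exact ⟨m, hm, hms⟩
    · exact h0
  have hzs : T.dist z s = n := by rw [hn, dist_comm]
  have hu : q 1 ∉ S := by
    intro h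
    have h1 := hmin _ h
    have h2 := (hd 1 hn0).2
    rw [hzs, dist_comm, h2] at h1
    omega
  have hadj1 : T.Adj (q 1) s := by
    have := hadj 0 hn0
    rw [hq0, zero_add] at this
    exact this.symm
  have hgu : q 1 ≠ g • q 1 := fun h => hu (hmemS _ _ hjm h.symm)
  have hadj2 : T.Adj s (g • q 1) := by
    have := hact g _ _ hadj1.symm
    rwa [hgs] at this
  have h1 := nb hT (fun i => g • q i) n (fun i hi => hact g _ _ (hadj i hi))
    (fun i hi h => hnb i hi (smul_left_cancel g h)) z (by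
      intro _
      rw [hq0, hgs]
      apply junction hT hadj1 hadj2 hgu
      rw [hzs, dist_comm, (hd 1 hn0).2]
      omega) n le_rfl
  change T.dist z (g • q n) = T.dist z (g • q 0) + n at h1
  rw [hqn, hq0, hgs, hzs] at h1
  have h2 : T.dist s (g • z) ≤ n := by
    have := dist_smul_le hT hact g s z
    rwa [hgs] at this
  have h3 : T.dist z (g • z) ≤ T.dist z s + T.dist s (g • z) := hT.connected.dist_triangle
  have h4 : s ∈ p.support := mem_walk hT p (by
    rw [← hg, h1]
    omega)
  exact hp s h4 ⟨m, hm, hms⟩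

lemma axis_pow {G V : Type} [Group G] [MulAction G V] {T : SimpleGraph V} {g : G} {L : ℤ → V}
    {l : ℕ} (h : IsAxis T g L l) (k : ℕ) (hk : 0 < k) : IsAxis T (g ^ k) L (k * l) where
  line := h.line
  pos := Nat.mul_pos hk h.pos
  smul i := by
    rw [← zpow_natCast, h.smul_zpow]
    push_cast
    rfl

theorem s_hyl : S_HYL := by
  intro G V _ _ T h w L l hax z j hj hAv
  obtain ⟨p, hp⟩ := hAv
  have key : ∃ i, T.dist z (L i) + T.dist (L i) (w ^ j • z) = T.dist z (w ^ j • z) := by
    rcases Int.natAbs_eq j with h1 | h1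
    · obtain ⟨i, hi, -⟩ := h.proj_between (axis_pow hax j.natAbs (Int.natAbs_pos.2 hj)) z
      rw [← zpow_natCast, ← h1] at hi
      exact ⟨i, hi⟩
    · obtain ⟨i, hi, -⟩ := h.proj_between (axis_pow hax.reverse j.natAbs (Int.natAbs_pos.2 hj)) z
      have e1 : w⁻¹ ^ j.natAbs = w ^ j := by
        rw [← zpow_natCast, inv_zpow', ← h1]
      rw [e1] at hi
      exact ⟨-i, hi⟩
  obtain ⟨i, hi⟩ := key
  exact hp (L i) (mem_walk h.isTree p hi) ⟨i, rfl⟩

end Pool.Agent.L7h97.AR
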