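import Pool.Agent.L7h59.AR.Stm

/-!
# The Bass–Serre graph of an amalgamated product is a tree

Task S_TREE of project AR (helper59).
-/

set_option autoImplicit false

namespace Pool.Agent.L7h97.AR

open Pool.Agent.Y110.FJ Pool.Agent.L7h59.AR

variable {G : Type} [Group G] {A B K : Subgroup G}

/-- translation of the graph -/
def tr (A B : Subgroup G) (x : G) : csg A B →g csg A B where
  toFun := Sum.map (fun y => x • y) (fun y => x • y)
  map_rel' := by
    rintro y z ⟨g, ⟨h1, h2⟩ | ⟨h1, h2⟩⟩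
    · exact ⟨x * g, Or.inl ⟨by rw [h1]; rfl, by rw [h2]; rfl⟩⟩
    · exact ⟨x * g, Or.inr ⟨by rw [h1]; rfl, by rw [h2]; rfl⟩⟩

lemma adj_lr (g : G) : (csg A B).Adj (Sum.inl (g : G ⧸ A)) (Sum.inr (g : G ⧸ B)) :=
  ⟨g, Or.inl ⟨rfl, rfl⟩⟩

/-- the elements whose cosets are reachable -/
def rs (A B : Subgroup G) : Subgroup G where
  carrier := {g | (csg A B).Reachable (Sum.inl ((1 : G) : G ⧸ A)) (Sum.inl (g : G ⧸ A))}
  one_mem' := SimpleGraph.Reachable.refl _
  mul_mem' := by
    intro a b ha hb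
    have h1 := hb.map (tr A B a)
    have h2 : (csg A B).Reachable (Sum.inl (a : G ⧸ A)) (Sum.inl ((a * b : G) : G ⧸ A)) := by
      have e1 : tr A B a (Sum.inl ((1 : G) : G ⧸ A)) = Sum.inl (a : G ⧸ A) := by
        change Sum.inl (((a * 1 : G)) : G ⧸ A) = _
        rw [mul_one]
      rw [e1] at h1
      exact h1
    exact ha.trans h2
  inv_mem' := by
    intro a ha
    have h1 := ha.map (tr A B a⁻¹)
    have e1 : tr A B a⁻¹ (Sum.inl ((1 : G) : G ⧸ A)) = Sum.inl ((a⁻¹ : G) : G ⧸ A) := by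
      change Sum.inl (((a⁻¹ * 1 : G)) : G ⧸ A) = _
      rw [mul_one]
    have e2 : tr A B a⁻¹ (Sum.inl (a : G ⧸ A)) = Sum.inl ((1 : G) : G ⧸ A) := by
      change Sum.inl (((a⁻¹ * a : G)) : G ⧸ A) = _
      rw [inv_mul_cancel]
    rw [e1, e2] at h1
    exact h1.symm

lemma connected (hAB : A ⊔ B = ⊤) : (csg A B).Connected := by
  have h1 : rs A B = ⊤ := by
    rw [eq_top_iff, ← hAB, sup_le_iff]
    constructor
    · intro a ha
      have : ((1 : G) : G ⧸ A) = (a : G ⧸ A) := by
        rw [QuotientGroup.eq]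
        simpa using ha
      change (csg A B).Reachable _ (Sum.inl (a : G ⧸ A))
      rw [← this]
    · intro b hb
      have h2 : ((1 : G) : G ⧸ B) = (b : G ⧸ B) := by
        rw [QuotientGroup.eq]
        simpa using hb
      change (csg A B).Reachable _ (Sum.inl (b : G ⧸ A))
      have h3 := (adj_lr (A := A) (B := B) (1 : G)).reachable
      rw [h2] at h3
      exact h3.trans (adj_lr b).reachable.symm
  have h2 : ∀ v, (csg A B).Reachable (Sum.inl ((1 : G) : G ⧸ A)) v := by
    rintro (v | v)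
    · induction v using QuotientGroup.induction_on with
      | H g =>
        have : g ∈ rs A B := by rw [h1]; trivial
        exact this
    · induction v using QuotientGroup.induction_on with
      | H g =>
        have : g ∈ rs A B := by rw [h1]; trivial
        exact SimpleGraph.Reachable.trans this (adj_lr g).reachable
  have : Nonempty ((G ⧸ A) ⊕ (G ⧸ B)) := ⟨Sum.inl ((1 : G) : G ⧸ A)⟩
  exact ⟨fun u v => (h2 u).symm.trans (h2 v)⟩

open Classical in
/-- the indicator function of a coset -/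
noncomputable def ph (K : Subgroup G) (g0 g : G) : ZMod 2 := if g0⁻¹ * g ∈ K then 1 else 0

lemma ph_mul (g0 g c : G) (hc : c ∈ K) : ph K g0 (g * c) = ph K g0 g := by
  unfold ph
  rw [← mul_assoc, Subgroup.mul_mem_cancel_right K hc]

/-- the permutations of `A` -/
noncomputable def pA : G →* Equiv.Perm (G × ZMod 2) where
  toFun a :=
    { toFun := fun q => (q.1 * a⁻¹, q.2)
      invFun := fun q => (q.1 * a, q.2)
      left_inv := fun q => by simp
      right_inv := fun q => by simp }
  map_one' := by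
    ext q <;> simp
  map_mul' a b := by
    ext q <;> simp [mul_assoc]

/-- the permutations of `B` -/
noncomputable def pB (K : Subgroup G) (g0 : G) : G →* Equiv.Perm (G × ZMod 2) where
  toFun b :=
    { toFun := fun q => (q.1 * b⁻¹, q.2 + ph K g0 q.1 + ph K g0 (q.1 * b⁻¹))
      invFun := fun q => (q.1 * b, q.2 + ph K g0 q.1 + ph K g0 (q.1 * b))
      left_inv := fun q => by
        ext
        · simp
        · simp only [inv_mul_cancel_right]
          have h1 := CharTwo.add_self_eq_zero (ph K g0 (q.1 * b⁻¹))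
          have h2 := CharTwo.add_self_eq_zero (ph K g0 q.1)
          linear_combination h1 + h2
      right_inv := fun q => by
        ext
        · simp
        · simp only [mul_inv_cancel_right]
          have h1 := CharTwo.add_self_eq_zero (ph K g0 (q.1 * b))
          have h2 := CharTwo.add_self_eq_zero (ph K g0 q.1)
          linear_combination h1 + h2 }
  map_one' := by
    ext q
    · simp
    · have h2 := CharTwo.add_self_eq_zero (ph K g0 q.1)
      simp only [Equiv.coe_fn_mk, inv_one, mul_one, Equiv.Perm.coe_one, id_eq]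
      linear_combination h2
  map_mul' a b := by
    ext q
    · simp [mul_assoc]
    · simp only [Equiv.coe_fn_mk, mul_inv_rev, Equiv.Perm.coe_mul, Function.comp_apply]
      have h2 := CharTwo.add_self_eq_zero (ph K g0 (q.1 * b⁻¹))
      rw [← mul_assoc]
      linear_combination -h2

/-- the potential -/
lemma exists_pot (h : Amg A B K) (g0 : G) : ∃ P : G → ZMod 2,
    (∀ g, ∀ a ∈ A, P (g * a) = P g) ∧
      ∀ g, ∀ b ∈ B, P (g * b) + ph K g0 (g * b) = P g + ph K g0 g := by
  obtain ⟨θ, hA, hB⟩ := h.univ (Equiv.Perm (G × ZMod 2)) (pA.comp A.subtype)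
    ((pB K g0).comp B.subtype) (by
      intro c hc
      ext q
      · rfl
      · change q.2 = q.2 + ph K g0 q.1 + ph K g0 (q.1 * c⁻¹)
        rw [ph_mul _ _ _ (K.inv_mem hc), add_assoc, CharTwo.add_self_eq_zero, add_zero])
  have hA' : ∀ a ∈ A, ∀ q, θ a q = (q.1 * a⁻¹, q.2) := by
    intro a ha q
    rw [show θ a = θ ((⟨a, ha⟩ : A) : G) from rfl, hA]
    rfl
  have hB' : ∀ b ∈ B, ∀ q, θ b q = (q.1 * b⁻¹, q.2 + ph K g0 q.1 + ph K g0 (q.1 * b⁻¹)) := by
    intro b hb q
    rw [show θ b = θ ((⟨b, hb⟩ : B) : G) from rfl, hB]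
    rfl
  have h1 : ∀ (x : G) (q : G × ZMod 2), (θ x q).1 = q.1 * x⁻¹ := by
    let S : Subgroup G :=
      { carrier := {x | ∀ q, (θ x q).1 = q.1 * x⁻¹}
        one_mem' := fun q => by simp
        mul_mem' := by
          intro x y hx hy q
          rw [map_mul, Equiv.Perm.mul_apply, hx, hy, mul_inv_rev, mul_assoc]
        inv_mem' := by
          intro x hx q
          have h2 := hx (θ x⁻¹ q)
          rw [← Equiv.Perm.mul_apply, ← map_mul, mul_inv_cancel, map_one, Equiv.Perm.one_apply] at h2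
          rw [h2]
          simp }
    have hS : S = ⊤ := by
      rw [eq_top_iff, ← h.gen, sup_le_iff]
      constructor
      · intro a ha q
        rw [hA' a ha]
      · intro b hb q
        rw [hB' b hb]
    intro x
    have : x ∈ S := by rw [hS]; trivial
    exact this
  refine ⟨fun x => (θ x⁻¹ (1, 0)).2, ?_, ?_⟩
  · intro g a ha
    simp only
    rw [mul_inv_rev, map_mul, Equiv.Perm.mul_apply, hA' _ (A.inv_mem ha)]
  · intro g b hb
    simp only
    rw [mul_inv_rev, map_mul, Equiv.Perm.mul_apply, hB' _ (B.inv_mem hb), h1]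
    simp only [inv_inv, one_mul]
    have h2 := CharTwo.add_self_eq_zero (ph K g0 (g * b))
    linear_combination h2

/-- every edge is a bridge -/
lemma bridge (h : Amg A B K) (g0 : G) :
    (csg A B).IsBridge s(Sum.inl (g0 : G ⧸ A), Sum.inr (g0 : G ⧸ B)) := by
  rw [SimpleGraph.isBridge_iff]
  obtain ⟨P, hPA, hPB⟩ := exists_pot h g0
  set L : (G ⧸ A) ⊕ (G ⧸ B) → ZMod 2 :=
    Sum.elim (fun y => P y.out) (fun y => P y.out + ph K g0 y.out) with hL
  have hL1 : ∀ g : G, L (Sum.inl (g : G ⧸ A)) = P g := by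
    intro g
    obtain ⟨a, ha⟩ := QuotientGroup.mk_out_eq_mul A g
    rw [hL, Sum.elim_inl, ha, hPA g a a.2]
  have hL2 : ∀ g : G, L (Sum.inr (g : G ⧸ B)) = P g + ph K g0 g := by
    intro g
    obtain ⟨b, hb⟩ := QuotientGroup.mk_out_eq_mul B g
    rw [hL, Sum.elim_inr, hb, hPB g b b.2]
  have key : ∀ g : G, s(Sum.inl (g : G ⧸ A), Sum.inr (g : G ⧸ B)) ≠
      s(Sum.inl (g0 : G ⧸ A), Sum.inr (g0 : G ⧸ B)) →
      L (Sum.inl (g : G ⧸ A)) = L (Sum.inr (g : G ⧸ B)) := by
    intro g hne
    have h0 : ph K g0 g = 0 := by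
      unfold ph
      rw [if_neg]
      intro hK
      apply hne
      have e1 : (g : G ⧸ A) = (g0 : G ⧸ A) := (QuotientGroup.eq.2 (h.le_left hK)).symm
      have e2 : (g : G ⧸ B) = (g0 : G ⧸ B) := (QuotientGroup.eq.2 (h.le_right hK)).symm
      rw [e1, e2]
    rw [hL1, hL2, h0, add_zero]
  have hadj : ∀ u v, ((csg A B).deleteEdges {s(Sum.inl (g0 : G ⧸ A), Sum.inr (g0 : G ⧸ B))}).Adj
      u v → L u = L v := by
    intro u v huv
    rw [SimpleGraph.deleteEdges_adj] at huv
    obtain ⟨⟨g, ⟨h1, h2⟩ | ⟨h1, h2⟩⟩, hne⟩ := huv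
    · rw [h1, h2] at hne ⊢
      exact key g hne
    · rw [h1, h2] at hne ⊢
      refine (key g fun h3 => hne ?_).symm
      exact Set.mem_singleton_iff.2 (Sym2.eq_swap.trans h3)
  rintro ⟨p⟩
  have hw : ∀ u v, ((csg A B).deleteEdges
      {s(Sum.inl (g0 : G ⧸ A), Sum.inr (g0 : G ⧸ B))}).Walk u v → L u = L v := by
    intro u v p
    induction p with
    | nil => rfl
    | cons h _ ih => exact (hadj _ _ h).trans ih
  have h1 := hw _ _ p
  rw [hL1, hL2] at h1
  have h2 : ph K g0 g0 = 1 := by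
    unfold ph
    rw [if_pos]
    rw [inv_mul_cancel]
    exact K.one_mem
  rw [h2] at h1
  have h3 : (1 : ZMod 2) = 0 := by linear_combination -h1
  exact one_ne_zero h3

theorem s_tree : S_TREE := by
  intro G _ A B K h
  refine ⟨connected h.gen, ?_⟩
  rw [SimpleGraph.isAcyclic_iff_forall_adj_isBridge]
  rintro u v ⟨g, ⟨rfl, rfl⟩ | ⟨rfl, rfl⟩⟩
  · exact bridge h g
  · rw [Sym2.eq_swap]
    exact bridge h g

end Pool.Agent.L7h97.AR
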